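import Pool.Agent.H86.DA.Stm

/-!
# Project DA, module MAS: the sum of `log p` over a dense set of primes
-/

set_option autoImplicit false

namespace Pool.Agent.H83.DA

open Finset Pool.Agent.H86.DA

theorem mas : S_MAS := by
  intro hP α hα
  obtain ⟨n₁, h1⟩ := hP (1 / 4) (by norm_num)
  have hlog := (isLittleO_log_rpow_atTop (show (0 : ℝ) < 1 / 2 by norm_num)).bound
    (show (0 : ℝ) < α / 4 by positivity)
  have hlog' := (tendsto_natCast_atTop_atTop (R := ℝ)).eventually hlog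
  obtain ⟨n₂, h2⟩ := Filter.eventually_atTop.1 hlog'
  refine ⟨max (max n₁ n₂) 1, fun Y hY P hPp hcard => ?_⟩
  have hY1 : n₁ ≤ Y := (le_max_left _ _).trans ((le_max_left _ _).trans hY)
  have hY2 : n₂ ≤ Y := (le_max_right _ _).trans ((le_max_left _ _).trans hY)
  have hY3 : 1 ≤ Y := (le_max_right _ _).trans hY
  have hYr : (1 : ℝ) ≤ Y := by exact_mod_cast hY3
  have hY0 : (0 : ℝ) < Y := by linarith
  have hL0 : 0 ≤ Real.log Y := Real.log_nonneg hYr
  have hL : Real.log Y ≤ α / 4 * √(Y : ℝ) := by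
    have h3 := h2 Y hY2
    rw [Real.norm_of_nonneg hL0, Real.norm_of_nonneg (by positivity), ← Real.sqrt_eq_rpow] at h3
    exact h3
  have hπ : 3 / 4 * (Y : ℝ) ≤ (Nat.primeCounting Y : ℝ) * Real.log Y := by
    have h3 := h1 Y hY1
    linarith
  have hc : (P.card : ℝ) - √(Y : ℝ) ≤ ((P.filter fun p => Nat.sqrt Y < p).card : ℝ) := by
    have h3 : (P.filter fun p => Nat.sqrt Y < p).card +
        (P.filter fun p => ¬ Nat.sqrt Y < p).card = P.card :=
      card_filter_add_card_filter_not (s := P) (fun p => Nat.sqrt Y < p)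
    have h4 : (P.filter fun p => ¬ Nat.sqrt Y < p).card ≤ Nat.sqrt Y := by
      calc _ ≤ (Icc 1 (Nat.sqrt Y)).card := by
            apply card_le_card
            intro p hp
            rw [mem_filter] at hp
            rw [mem_Icc]
            exact ⟨(hPp p hp.1).1.one_lt.le, not_lt.1 hp.2⟩
        _ = Nat.sqrt Y := by simp
    have h5 : ((Nat.sqrt Y : ℕ) : ℝ) ≤ √(Y : ℝ) := Real.nat_sqrt_le_real_sqrt
    have h6 : ((P.filter fun p => Nat.sqrt Y < p).card : ℝ) +
        ((P.filter fun p => ¬ Nat.sqrt Y < p).card : ℝ) = (P.card : ℝ) := by exact_mod_cast h3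
    have h7 : ((P.filter fun p => ¬ Nat.sqrt Y < p).card : ℝ) ≤ ((Nat.sqrt Y : ℕ) : ℝ) := by
      exact_mod_cast h4
    linarith
  have hsum : ((P.filter fun p => Nat.sqrt Y < p).card : ℝ) * (Real.log Y / 2) ≤
      ∑ p ∈ P, Real.log p := by
    calc ((P.filter fun p => Nat.sqrt Y < p).card : ℝ) * (Real.log Y / 2)
        = ∑ p ∈ P.filter fun p => Nat.sqrt Y < p, Real.log Y / 2 := by
          rw [sum_const, nsmul_eq_mul]
      _ ≤ ∑ p ∈ P.filter fun p => Nat.sqrt Y < p, Real.log p := by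
          refine sum_le_sum fun p hp => ?_
          rw [mem_filter] at hp
          have h3 : Y < p ^ 2 := Nat.sqrt_lt'.1 hp.2
          have h4 : Real.log Y ≤ Real.log ((p : ℝ) ^ 2) := by
            apply Real.log_le_log hY0
            exact_mod_cast h3.le
          rw [Real.log_pow] at h4
          push_cast at h4
          linarith
      _ ≤ ∑ p ∈ P, Real.log p :=
          sum_le_sum_of_subset_of_nonneg (filter_subset _ _)
            fun p _ _ => Real.log_natCast_nonneg p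
  have hsq : √(Y : ℝ) * √(Y : ℝ) = Y := Real.mul_self_sqrt hY0.le
  have hs0 : 0 ≤ √(Y : ℝ) := Real.sqrt_nonneg _
  have e1 : (α * (Nat.primeCounting Y : ℝ) - √(Y : ℝ)) * (Real.log Y / 2) ≤
      ((P.filter fun p => Nat.sqrt Y < p).card : ℝ) * (Real.log Y / 2) :=
    mul_le_mul_of_nonneg_right (by linarith) (by linarith)
  have e2 : α * (3 / 4 * (Y : ℝ)) ≤ α * ((Nat.primeCounting Y : ℝ) * Real.log Y) :=
    mul_le_mul_of_nonneg_left hπ hα.le
  have e3 : √(Y : ℝ) * Real.log Y ≤ α / 4 * Y := by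
    calc √(Y : ℝ) * Real.log Y ≤ √(Y : ℝ) * (α / 4 * √(Y : ℝ)) :=
          mul_le_mul_of_nonneg_left hL hs0
      _ = α / 4 * (√(Y : ℝ) * √(Y : ℝ)) := by ring
      _ = α / 4 * Y := by rw [hsq]
  calc α / 4 * (Y : ℝ) ≤ (α * (Nat.primeCounting Y : ℝ) - √(Y : ℝ)) * (Real.log Y / 2) := by
        linarith
    _ ≤ _ := e1
    _ ≤ _ := hsum

end Pool.Agent.H83.DA
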